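import Pool.Agent.MP_48844b_co.Mg.Local

namespace Pool.Agent.Results.MP_48844b_co.Frequency

theorem result :
    ∀ K : ℕ → ℕ,
      (∀ n, K n = 1 ∨ K n = 2) →
      (∀ n i, (∑ j ∈ Finset.range i, K j) ≤ n →
          n < (∑ j ∈ Finset.range (i + 1), K j) → K n = 1 + i % 2) →
      ∀ (k : ℕ) (σ : Fin k → List (Fin k)) (a : Fin k) (w : ℕ → Fin k) (τ : Fin k → ℕ),
        (∀ n m x, ((fun l : List (Fin k) => l.flatMap σ)^[n] [a])[m]? = some x → w m = x) →
        (∀ N : ℕ, ∃ n : ℕ, N < ((fun l : List (Fin k) => l.flatMap σ)^[n] [a]).length) →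
        (∀ n, K n = τ (w n)) →
        ∀ α : ℝ,
          Filter.Tendsto
            (fun n : ℕ => (((Finset.range n).filter (fun i => K i = 1)).card : ℝ) / n)
            Filter.atTop (nhds α) →
          IsIntegral ℤ α ∧ Irrational α := by
  intro K h12 hrun k σ a w τ hpre hgrow hτ α hα
  have hK : MP_48844b_co.IsKol K := ⟨h12, hrun⟩
  obtain ⟨W, hW⟩ := MP_48844b_co.loc_of_morphic hK ⟨hpre, hgrow⟩ hτ
  exact MP_48844b_co.freq_of_loc hK hW (by simpa only [MP_48844b_co.cnt, zero_add] using hα)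

end Pool.Agent.Results.MP_48844b_co.Frequency
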