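import Pool.Agent.MP_48844b_co.Mg.Local

namespace Pool.Agent.Results.MP_48844b_co.Mirror

theorem result :
    ∀ K : ℕ → ℕ,
      (∀ n, K n = 1 ∨ K n = 2) →
      (∀ n i, (∑ j ∈ Finset.range i, K j) ≤ n →
          n < (∑ j ∈ Finset.range (i + 1), K j) → K n = 1 + i % 2) →
      ((∃ (k : ℕ) (σ : Fin k → List (Fin k)) (a : Fin k) (w : ℕ → Fin k) (τ : Fin k → ℕ),
        (∀ n m x, ((fun l : List (Fin k) => l.flatMap σ)^[n] [a])[m]? = some x → w m = x) ∧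
        (∀ N : ℕ, ∃ n : ℕ, N < ((fun l : List (Fin k) => l.flatMap σ)^[n] [a]).length) ∧
        ∀ n, K n = τ (w n)) ↔
      ∃ W : ℕ, ∀ x y : ℕ, ¬ ∀ i, i < W → K (x + i) + K (y + i) = 3) := by
  intro K h12 hrun
  have hK : MP_48844b_co.IsKol K := ⟨h12, hrun⟩
  constructor
  · rintro ⟨k, σ, a, w, τ, h1, h2, h3⟩
    exact (MP_48844b_co.loc_iff_noComp hK).1 (MP_48844b_co.loc_of_morphic hK ⟨h1, h2⟩ h3)
  · intro h
    obtain ⟨W, hW⟩ := (MP_48844b_co.loc_iff_noComp hK).2 h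
    obtain ⟨k, ρ, c, τ, h1, h2, -⟩ := MP_48844b_co.morphic_of_loc hK hW
    exact ⟨k, ρ, c 0, c, τ, h1.pre, h1.grow, h2⟩

end Pool.Agent.Results.MP_48844b_co.Mirror
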