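import Pool.Agent.MP_48844b_co.H53.Freq

namespace Pool.Agent.Results.MP_48844b_co.MixedPair

theorem result :
    ∀ b : ℕ, 0 < b → 8 ∣ b →
      ∃ x y : ℕ → ℕ,
        (∀ n, x n = 1 ∨ x n = b) ∧ (∀ n, y n = 1 ∨ y n = b) ∧
        (∀ n i, (∑ j ∈ Finset.range i, y j) ≤ n → n < (∑ j ∈ Finset.range (i + 1), y j) →
          x n = if i % 2 = 0 then 1 else b) ∧
        (∀ n i, (∑ j ∈ Finset.range i, x j) ≤ n → n < (∑ j ∈ Finset.range (i + 1), x j) →
          y n = if i % 2 = 0 then b else 1) ∧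
        ∃ (k : ℕ) (σ : Fin k → List (Fin k)) (a : Fin k) (w : ℕ → Fin k) (τ : Fin k → ℕ),
          (∀ n m c, ((fun l : List (Fin k) => l.flatMap σ)^[n] [a])[m]? = some c → w m = c) ∧
          (∀ N : ℕ, ∃ n : ℕ, N < ((fun l : List (Fin k) => l.flatMap σ)^[n] [a]).length) ∧
          (∃ r : ℕ, ∀ c d : Fin k, d ∈ (fun l : List (Fin k) => l.flatMap σ)^[r] [c]) ∧
          ∀ n, x n = τ (w n) := by
  rintro b hb ⟨k, rfl⟩
  have hk : 0 < k := by omega
  obtain ⟨w, hw⟩ := MP_48844b_co.H53.fix_w hk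
  obtain ⟨v, hv⟩ := MP_48844b_co.H53.fix_v hk
  have hval : ∀ e, MP_48844b_co.H53.val k e = 1 ∨ MP_48844b_co.H53.val k e = 8 * k := by
    intro e
    unfold MP_48844b_co.H53.val
    split_ifs <;> simp
  exact ⟨fun n => MP_48844b_co.H53.val k (w n), fun n => MP_48844b_co.H53.val k (v n),
    fun n => hval _, fun n => hval _, fun n i a1 a2 => MP_48844b_co.H53.run_w hk hw hv a1 a2,
    fun n i a1 a2 => MP_48844b_co.H53.run_v hk hw hv a1 a2,
    24, MP_48844b_co.H53.ρ k, 0, w, MP_48844b_co.H53.val k, hw.pre, hw.grow,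
      ⟨6, MP_48844b_co.H53.prim hk⟩, fun _ => rfl⟩

end Pool.Agent.Results.MP_48844b_co.MixedPair
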