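import Pool.Agent.MP_48844b_co.Mg.Prim

namespace Pool.Agent.Results.MP_48844b_co.Primitive

open Filter Topology

theorem result :
    ∀ K : ℕ → ℕ,
      (∀ n, K n = 1 ∨ K n = 2) →
      (∀ n i, (∑ j ∈ Finset.range i, K j) ≤ n →
          n < (∑ j ∈ Finset.range (i + 1), K j) → K n = 1 + i % 2) →
      ∀ (k : ℕ) (σ : Fin k → List (Fin k)) (a : Fin k) (w : ℕ → Fin k) (τ : Fin k → ℕ),
        (∀ n m x, ((fun l : List (Fin k) => l.flatMap σ)^[n] [a])[m]? = some x → w m = x) →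
        (∀ N : ℕ, ∃ n : ℕ, N < ((fun l : List (Fin k) => l.flatMap σ)^[n] [a]).length) →
        (∀ n, K n = τ (w n)) →
        (∃ r : ℕ, ∀ b c : Fin k, c ∈ (fun l : List (Fin k) => l.flatMap σ)^[r] [b]) →
        ∃ α : ℝ, IsIntegral ℤ α ∧ Irrational α ∧
          Tendsto (fun n : ℕ => (((Finset.range n).filter (fun i => K i = 1)).card : ℝ) / n)
            atTop (𝓝 α) := by
  intro K h12 hrun k σ a w τ hpre hgrow hτ
  have hK : MP_48844b_co.IsKol K := ⟨h12, hrun⟩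
  have hF : MP_48844b_co.Fix σ a w := ⟨hpre, hgrow⟩
  rintro ⟨r, hr⟩
  obtain ⟨α, hα⟩ := MP_48844b_co.uf_of_primitive hF hτ hr
  obtain ⟨h1, h2⟩ := MP_48844b_co.uf_integral hK hF hτ hα
  refine ⟨α, h1, h2, ?_⟩
  have := hα.tendsto (x := fun _ => 0) (n := fun n => n) tendsto_id
  simpa [MP_48844b_co.cnt] using this

end Pool.Agent.Results.MP_48844b_co.Primitive
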